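import Mathlib

/-! Maximum modulus step for the accumulation bound of the Zhang-Zagier height:
a bound on the two circles `|z| = 1`, `|1 - z| = 1` extends to the whole plane. -/

open Polynomial Finset

namespace H38.ZZ

/-- a bounded open set on whose closure the denominator does not vanish -/
theorem maxmod_region {U : Set ℂ} (hU : Bornology.IsBounded U) (f D : ℂ[X])
    (hD : ∀ z ∈ closure U, D.eval z ≠ 0) {C : ℝ}
    (hfr : ∀ z ∈ frontier U, ‖f.eval z‖ ≤ C * ‖D.eval z‖) :
    ∀ z ∈ closure U, ‖f.eval z‖ ≤ C * ‖D.eval z‖ := by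
  intro z hz
  have hdiff : DiffContOnCl ℂ (fun z : ℂ => f.eval z / D.eval z) U := by
    apply DifferentiableOn.diffContOnCl
    apply DifferentiableOn.div f.differentiable.differentiableOn D.differentiable.differentiableOn
    exact hD
  have key : ‖f.eval z / D.eval z‖ ≤ C := by
    apply Complex.norm_le_of_forall_mem_frontier_norm_le hU hdiff _ hz
    intro w hw
    have hw' : w ∈ closure U := frontier_subset_closure hw
    have hpos : 0 < ‖D.eval w‖ := norm_pos_iff.mpr (hD w hw')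
    rw [norm_div, div_le_iff₀ hpos]
    exact hfr w hw
  have hpos : 0 < ‖D.eval z‖ := norm_pos_iff.mpr (hD z hz)
  rwa [norm_div, div_le_iff₀ hpos] at key

/-- growth of a polynomial of degree `< 2 N` -/
theorem growth (f : ℂ[X]) (N : ℕ) (hdeg : f.natDegree < 2 * N) {ε : ℝ} (hε : 0 < ε) :
    ∃ R₀ : ℝ, ∀ z : ℂ, R₀ ≤ ‖z‖ → ‖f.eval z‖ ≤ ε * (‖z‖ ^ N * ‖1 - z‖ ^ N) := by
  set K : ℝ := ∑ i ∈ range (f.natDegree + 1), ‖f.coeff i‖ with hK
  have hK0 : 0 ≤ K := Finset.sum_nonneg fun i _ => norm_nonneg _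
  refine ⟨max 2 (K * 2 ^ N / ε), fun z hz => ?_⟩
  have hz2 : 2 ≤ ‖z‖ := le_trans (le_max_left _ _) hz
  have hzK : K * 2 ^ N / ε ≤ ‖z‖ := le_trans (le_max_right _ _) hz
  have hz1 : 1 ≤ ‖z‖ := by linarith
  have h1 : ‖f.eval z‖ ≤ K * ‖z‖ ^ (2 * N - 1) := by
    rw [eval_eq_sum_range, hK, Finset.sum_mul]
    refine le_trans (norm_sum_le _ _) (Finset.sum_le_sum fun i hi => ?_)
    rw [norm_mul, norm_pow]
    apply mul_le_mul_of_nonneg_left _ (norm_nonneg _)
    apply pow_le_pow_right₀ hz1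
    have := Finset.mem_range.mp hi
    omega
  have h2 : ‖z‖ / 2 ≤ ‖1 - z‖ := by
    have : ‖z‖ - 1 ≤ ‖1 - z‖ := by
      have h := norm_sub_norm_le z (1 : ℂ)
      rw [norm_one] at h
      rwa [norm_sub_rev] at h
    linarith
  have h3 : (‖z‖ / 2) ^ N ≤ ‖1 - z‖ ^ N := pow_le_pow_left₀ (by positivity) h2 N
  have h4 : K * 2 ^ N ≤ ε * ‖z‖ := by
    rw [div_le_iff₀ hε] at hzK
    linarith
  have hN : 2 * N = (2 * N - 1) + 1 := by omega
  have h5 : ‖z‖ ^ N * ‖z‖ ^ N = ‖z‖ ^ (2 * N - 1) * ‖z‖ := by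
    rw [← pow_add, ← two_mul, ← pow_succ, ← hN]
  have h6 : ‖z‖ ^ N * (‖z‖ / 2) ^ N ≤ ‖z‖ ^ N * ‖1 - z‖ ^ N :=
    mul_le_mul_of_nonneg_left h3 (by positivity)
  have h7 : ‖z‖ ^ N * (‖z‖ / 2) ^ N = ‖z‖ ^ (2 * N - 1) * ‖z‖ / 2 ^ N := by
    rw [div_pow, ← h5]; ring
  have h2N : (0 : ℝ) < 2 ^ N := by positivity
  calc ‖f.eval z‖ ≤ K * ‖z‖ ^ (2 * N - 1) := h1
    _ = (K * 2 ^ N) * (‖z‖ ^ (2 * N - 1) / 2 ^ N) := by field_simp
    _ ≤ (ε * ‖z‖) * (‖z‖ ^ (2 * N - 1) / 2 ^ N) :=
        mul_le_mul_of_nonneg_right h4 (by positivity)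
    _ = ε * (‖z‖ ^ (2 * N - 1) * ‖z‖ / 2 ^ N) := by ring
    _ = ε * (‖z‖ ^ N * (‖z‖ / 2) ^ N) := by rw [h7]
    _ ≤ ε * (‖z‖ ^ N * ‖1 - z‖ ^ N) := mul_le_mul_of_nonneg_left h6 hε.le

theorem frontier_cases {U : Set ℂ} (hU : IsOpen U) {z : ℂ} (hz : z ∈ frontier U) :
    z ∈ closure U ∧ z ∉ U := by
  rw [frontier, hU.interior_eq] at hz
  exact ⟨hz.1, hz.2⟩

/-- the polynomial form of the statement -/
theorem maxmod_poly (f : ℂ[X]) (N : ℕ) (C : ℝ) (hdeg : f.natDegree < 2 * N)
    (hcirc : ∀ z : ℂ, (‖z‖ = 1 ∨ ‖1 - z‖ = 1) →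
      ‖f.eval z‖ ≤ C * (max 1 ‖z‖ * max 1 ‖1 - z‖) ^ N) (z : ℂ) :
    ‖f.eval z‖ ≤ C * (max 1 ‖z‖ * max 1 ‖1 - z‖) ^ N := by
  have hcl1 : IsClosed {z : ℂ | ‖z‖ ≤ 1} := isClosed_le continuous_norm continuous_const
  have hcl2 : IsClosed {z : ℂ | 1 ≤ ‖z‖} := isClosed_le continuous_const continuous_norm
  have hc : Continuous fun z : ℂ => ‖1 - z‖ := (continuous_const.sub continuous_id).norm
  have hcl3 : IsClosed {z : ℂ | ‖1 - z‖ ≤ 1} := isClosed_le hc continuous_const
  have hcl4 : IsClosed {z : ℂ | 1 ≤ ‖1 - z‖} := isClosed_le continuous_const hc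
  have ho1 : IsOpen {z : ℂ | ‖z‖ < 1} := isOpen_lt continuous_norm continuous_const
  have ho2 : IsOpen {z : ℂ | 1 < ‖z‖} := isOpen_lt continuous_const continuous_norm
  have ho3 : IsOpen {z : ℂ | ‖1 - z‖ < 1} := isOpen_lt hc continuous_const
  have ho4 : IsOpen {z : ℂ | 1 < ‖1 - z‖} := isOpen_lt continuous_const hc
  have hC : 0 ≤ C := by
    have := hcirc 1 (Or.inl norm_one)
    simp only [norm_one, sub_self, norm_zero, max_self, zero_le_one, max_eq_left, mul_one,
      one_pow] at this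
    exact le_trans (norm_nonneg _) this
  have s1 : {z : ℂ | ‖z‖ < 1} ⊆ {z : ℂ | ‖z‖ ≤ 1} := fun w hw => by
    exact (show ‖w‖ ≤ 1 from le_of_lt (show ‖w‖ < 1 from hw))
  have s2 : {z : ℂ | 1 < ‖z‖} ⊆ {z : ℂ | 1 ≤ ‖z‖} := fun w hw => by
    exact (show 1 ≤ ‖w‖ from le_of_lt (show 1 < ‖w‖ from hw))
  have s3 : {z : ℂ | ‖1 - z‖ < 1} ⊆ {z : ℂ | ‖1 - z‖ ≤ 1} := fun w hw => by
    exact (show ‖1 - w‖ ≤ 1 from le_of_lt (show ‖1 - w‖ < 1 from hw))
  have s4 : {z : ℂ | 1 < ‖1 - z‖} ⊆ {z : ℂ | 1 ≤ ‖1 - z‖} := fun w hw => by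
    exact (show 1 ≤ ‖1 - w‖ from le_of_lt (show 1 < ‖1 - w‖ from hw))
  have hb1 : Bornology.IsBounded {z : ℂ | ‖z‖ < 1} := by
    refine (Metric.isBounded_ball (x := (0 : ℂ)) (r := 1)).subset fun w hw => ?_
    simpa [Metric.mem_ball, dist_eq_norm] using hw
  have hb3 : Bornology.IsBounded {z : ℂ | ‖1 - z‖ < 1} := by
    refine (Metric.isBounded_ball (x := (1 : ℂ)) (r := 1)).subset fun w hw => ?_
    rw [Metric.mem_ball, dist_eq_norm, norm_sub_rev]
    exact hw
  rcases eq_or_ne ‖z‖ 1 with hz1 | hz1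
  · exact hcirc z (Or.inl hz1)
  rcases eq_or_ne ‖1 - z‖ 1 with hz2 | hz2
  · exact hcirc z (Or.inr hz2)
  rcases lt_or_gt_of_ne hz1 with h1 | h1
  · rcases lt_or_gt_of_ne hz2 with h2 | h2
    · -- the lens
      set U : Set ℂ := {z : ℂ | ‖z‖ < 1} ∩ {z : ℂ | ‖1 - z‖ < 1} with hUdef
      have hUo : IsOpen U := ho1.inter ho3
      have hcl : closure U ⊆ {z : ℂ | ‖z‖ ≤ 1} ∩ {z : ℂ | ‖1 - z‖ ≤ 1} :=
        closure_minimal (Set.inter_subset_inter s1 s3) (hcl1.inter hcl3)
      have := maxmod_region (hb1.subset Set.inter_subset_left) f 1 (C := C) (U := U)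
        (by intro w _; simp) (by
          intro w hw
          obtain ⟨hw1, hw2⟩ := frontier_cases hUo hw
          obtain ⟨ha, hb⟩ := hcl hw1
          have ha' : ‖w‖ ≤ 1 := ha
          have hb' : ‖1 - w‖ ≤ 1 := hb
          have hor : ‖w‖ = 1 ∨ ‖1 - w‖ = 1 := by
            by_contra hcon
            push Not at hcon
            exact hw2 ⟨lt_of_le_of_ne ha' hcon.1, lt_of_le_of_ne hb' hcon.2⟩
          have h := hcirc w hor
          rw [max_eq_left ha', max_eq_left hb'] at h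
          simpa using h) z (subset_closure ⟨h1, h2⟩)
      rw [max_eq_left h1.le, max_eq_left h2.le]
      simpa using this
    · set U : Set ℂ := {z : ℂ | ‖z‖ < 1} ∩ {z : ℂ | 1 < ‖1 - z‖} with hUdef
      have hUo : IsOpen U := ho1.inter ho4
      have hcl : closure U ⊆ {z : ℂ | ‖z‖ ≤ 1} ∩ {z : ℂ | 1 ≤ ‖1 - z‖} :=
        closure_minimal (Set.inter_subset_inter s1 s4) (hcl1.inter hcl4)
      have := maxmod_region (hb1.subset Set.inter_subset_left) f ((1 - X) ^ N) (C := C) (U := U)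
        (by
          intro w hw
          have hb' : 1 ≤ ‖1 - w‖ := (hcl hw).2
          simp only [eval_pow, eval_sub, eval_one, eval_X]
          apply pow_ne_zero
          intro h0
          rw [h0, norm_zero] at hb'
          linarith) (by
          intro w hw
          obtain ⟨hw1, hw2⟩ := frontier_cases hUo hw
          obtain ⟨ha, hb⟩ := hcl hw1
          have ha' : ‖w‖ ≤ 1 := ha
          have hb' : 1 ≤ ‖1 - w‖ := hb
          have hor : ‖w‖ = 1 ∨ ‖1 - w‖ = 1 := by
            by_contra hcon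
            push Not at hcon
            exact hw2 ⟨lt_of_le_of_ne ha' hcon.1, lt_of_le_of_ne hb' (Ne.symm hcon.2)⟩
          have h := hcirc w hor
          rw [max_eq_left ha', max_eq_right hb', one_mul] at h
          simpa [norm_pow] using h) z (subset_closure ⟨h1, h2⟩)
      rw [max_eq_left h1.le, max_eq_right (le_of_lt h2), one_mul]
      simpa [norm_pow] using this
  · rcases lt_or_gt_of_ne hz2 with h2 | h2
    · set U : Set ℂ := {z : ℂ | 1 < ‖z‖} ∩ {z : ℂ | ‖1 - z‖ < 1} with hUdef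
      have hUo : IsOpen U := ho2.inter ho3
      have hcl : closure U ⊆ {z : ℂ | 1 ≤ ‖z‖} ∩ {z : ℂ | ‖1 - z‖ ≤ 1} :=
        closure_minimal (Set.inter_subset_inter s2 s3) (hcl2.inter hcl3)
      have := maxmod_region (hb3.subset Set.inter_subset_right) f (X ^ N) (C := C) (U := U)
        (by
          intro w hw
          have hb' : 1 ≤ ‖w‖ := (hcl hw).1
          simp only [eval_pow, eval_X]
          apply pow_ne_zero
          intro h0
          rw [h0, norm_zero] at hb'
          linarith) (by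
          intro w hw
          obtain ⟨hw1, hw2⟩ := frontier_cases hUo hw
          obtain ⟨ha, hb⟩ := hcl hw1
          have ha' : 1 ≤ ‖w‖ := ha
          have hb' : ‖1 - w‖ ≤ 1 := hb
          have hor : ‖w‖ = 1 ∨ ‖1 - w‖ = 1 := by
            by_contra hcon
            push Not at hcon
            exact hw2 ⟨lt_of_le_of_ne ha' (Ne.symm hcon.1), lt_of_le_of_ne hb' hcon.2⟩
          have h := hcirc w hor
          rw [max_eq_right ha', max_eq_left hb', mul_one] at h
          simpa [norm_pow] using h) z (subset_closure ⟨h1, h2⟩)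
      rw [max_eq_right (le_of_lt h1), max_eq_left h2.le, mul_one]
      simpa [norm_pow] using this
    · -- the outer region
      rw [max_eq_right (le_of_lt h1), max_eq_right (le_of_lt h2)]
      have key : ∀ ε : ℝ, 0 < ε → ‖f.eval z‖ ≤ (C + ε) * (‖z‖ * ‖1 - z‖) ^ N := by
        intro ε hε
        obtain ⟨R₀, hR₀⟩ := growth f N hdeg hε
        set R : ℝ := max R₀ (‖z‖ + 1) with hR
        have hzR : ‖z‖ < R := lt_of_lt_of_le (by linarith) (le_max_right _ _)
        set U : Set ℂ := ({z : ℂ | 1 < ‖z‖} ∩ {z : ℂ | 1 < ‖1 - z‖}) ∩ {z : ℂ | ‖z‖ < R}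
          with hUdef
        have ho5 : IsOpen {z : ℂ | ‖z‖ < R} := isOpen_lt continuous_norm continuous_const
        have hcl5 : IsClosed {z : ℂ | ‖z‖ ≤ R} := isClosed_le continuous_norm continuous_const
        have hUo : IsOpen U := (ho2.inter ho4).inter ho5
        have hcl : closure U ⊆ ({z : ℂ | 1 ≤ ‖z‖} ∩ {z : ℂ | 1 ≤ ‖1 - z‖}) ∩ {z : ℂ | ‖z‖ ≤ R} :=
          closure_minimal (Set.inter_subset_inter (Set.inter_subset_inter s2 s4)
            (fun w hw => (show ‖w‖ ≤ R from le_of_lt (show ‖w‖ < R from hw))))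
            ((hcl2.inter hcl4).inter hcl5)
        have hbU : Bornology.IsBounded U := by
          refine (Metric.isBounded_ball (x := (0 : ℂ)) (r := R)).subset fun w hw => ?_
          simpa [Metric.mem_ball, dist_eq_norm] using hw.2
        have := maxmod_region hbU f (X ^ N * (1 - X) ^ N) (C := C + ε) (U := U)
          (by
            intro w hw
            obtain ⟨⟨ha, hb⟩, -⟩ := hcl hw
            have ha' : 1 ≤ ‖w‖ := ha
            have hb' : 1 ≤ ‖1 - w‖ := hb
            simp only [eval_mul, eval_pow, eval_sub, eval_one, eval_X]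
            apply mul_ne_zero
            · apply pow_ne_zero
              intro h0
              rw [h0, norm_zero] at ha'
              linarith
            · apply pow_ne_zero
              intro h0
              rw [h0, norm_zero] at hb'
              linarith) (by
            intro w hw
            obtain ⟨hw1, hw2⟩ := frontier_cases hUo hw
            obtain ⟨⟨ha, hb⟩, hd⟩ := hcl hw1
            have ha' : 1 ≤ ‖w‖ := ha
            have hb' : 1 ≤ ‖1 - w‖ := hb
            have hd' : ‖w‖ ≤ R := hd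
            simp only [eval_mul, eval_pow, eval_sub, eval_one, eval_X, norm_mul, norm_pow]
            rcases eq_or_ne ‖w‖ R with hwR | hwR
            · have h := hR₀ w (by rw [hwR]; exact le_max_left _ _)
              refine le_trans h (mul_le_mul_of_nonneg_right (by linarith) (by positivity))
            · have hor : ‖w‖ = 1 ∨ ‖1 - w‖ = 1 := by
                by_contra hcon
                push Not at hcon
                exact hw2 ⟨⟨lt_of_le_of_ne ha' (Ne.symm hcon.1),
                  lt_of_le_of_ne hb' (Ne.symm hcon.2)⟩, lt_of_le_of_ne hd' hwR⟩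
              have h := hcirc w hor
              rw [max_eq_right ha', max_eq_right hb', mul_pow] at h
              refine le_trans h (mul_le_mul_of_nonneg_right (by linarith) (by positivity)))
            z (subset_closure ⟨⟨h1, h2⟩, hzR⟩)
        simpa [norm_mul, norm_pow, mul_pow] using this
      have hB : 0 < (‖z‖ * ‖1 - z‖) ^ N := by
        have : 0 < ‖z‖ := by linarith
        have : 0 < ‖1 - z‖ := by linarith
        positivity
      by_contra hcon
      push Not at hcon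
      set B : ℝ := (‖z‖ * ‖1 - z‖) ^ N with hBdef
      have h := key ((‖f.eval z‖ - C * B) / (2 * B)) (by
        apply div_pos (by linarith) (by linarith))
      have h' : (C + (‖f.eval z‖ - C * B) / (2 * B)) * B =
          C * B + (‖f.eval z‖ - C * B) / 2 := by
        field_simp
      rw [h'] at h
      linarith

/-- MAXMOD: the certificate on the two circles extends to the plane. -/
theorem maxmod {J M : ℕ} (P : Fin J → ℂ[X]) (n : Fin J → ℕ) (w : Fin M → ℂ) (r : Fin M → ℝ)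
    (hr : ∀ a, 0 < r a) (e N : ℕ) (C : ℝ)
    (hdeg : ∑ j, n j * (P j).natDegree + e * M < 2 * N)
    (hcirc : ∀ z : ℂ, (‖z‖ = 1 ∨ ‖1 - z‖ = 1) →
      (∏ j, ‖(P j).eval z‖ ^ n j) * (∏ a, max ‖z - w a‖ (r a)) ^ e ≤
        C * (max 1 ‖z‖ * max 1 ‖1 - z‖) ^ N) :
    ∀ z : ℂ, (∏ j, ‖(P j).eval z‖ ^ n j) * (∏ a, max ‖z - w a‖ (r a)) ^ e ≤
        C * (max 1 ‖z‖ * max 1 ‖1 - z‖) ^ N := by
  classical
  intro z₀
  set g : Fin M → ℂ[X] := fun a =>
    if r a ≤ ‖z₀ - w a‖ then X - Polynomial.C (w a) else Polynomial.C ((r a : ℝ) : ℂ) with hg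
  set f : ℂ[X] := (∏ j, P j ^ n j) * (∏ a, g a) ^ e with hf
  have hgdeg : ∀ a, (g a).natDegree ≤ 1 := by
    intro a
    simp only [hg]
    split_ifs
    · exact (natDegree_X_sub_C (w a)).le
    · rw [natDegree_C]; exact Nat.zero_le _
  have hgle : ∀ a (z : ℂ), ‖(g a).eval z‖ ≤ max ‖z - w a‖ (r a) := by
    intro a z
    simp only [hg]
    split_ifs
    · simp
    · simp only [eval_C, Complex.norm_real, Real.norm_eq_abs, abs_of_pos (hr a)]
      exact le_max_right _ _
  have hgeq : ∀ a, ‖(g a).eval z₀‖ = max ‖z₀ - w a‖ (r a) := by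
    intro a
    simp only [hg]
    split_ifs with h
    · simp [max_eq_left h]
    · push Not at h
      rw [max_eq_right h.le]
      simp [abs_of_pos (hr a)]
  have hfnorm : ∀ z : ℂ, ‖f.eval z‖ = (∏ j, ‖(P j).eval z‖ ^ n j) * (∏ a, ‖(g a).eval z‖) ^ e := by
    intro z
    simp only [hf, eval_mul, eval_pow, eval_prod, norm_mul, norm_pow, norm_prod]
  have hfdeg : f.natDegree < 2 * N := by
    refine lt_of_le_of_lt ?_ hdeg
    refine le_trans natDegree_mul_le (add_le_add ?_ ?_)
    · refine le_trans (natDegree_prod_le _ _) (Finset.sum_le_sum fun j _ => ?_)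
      exact natDegree_pow_le
    · refine le_trans natDegree_pow_le (Nat.mul_le_mul_left e ?_)
      refine le_trans (natDegree_prod_le _ _) ?_
      refine le_trans (Finset.sum_le_sum fun a _ => hgdeg a) ?_
      simp
  have hmain := maxmod_poly f N C hfdeg (by
    intro z hz
    refine le_trans ?_ (hcirc z hz)
    rw [hfnorm]
    apply mul_le_mul_of_nonneg_left _ (Finset.prod_nonneg fun j _ => by positivity)
    apply pow_le_pow_left₀ (Finset.prod_nonneg fun a _ => norm_nonneg _)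
    exact Finset.prod_le_prod (fun a _ => norm_nonneg _) fun a _ => hgle a z) z₀
  rw [hfnorm] at hmain
  simp only [hgeq] at hmain
  exact hmain

end H38.ZZ
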