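import Pool.Agent.H38.ZZ.Def

/-! Soundness of the interval check, the polynomial factors (board zz, literal P). -/

namespace H79.ZZ

open H38.ZZ

theorem smAux_eval (c : ℤ) (T : ℝ) : ∀ (q : List ℤ) (p : ℤ),
    evL (smAux c p q) T = (p : ℝ) + ((c : ℝ) + T) * evL q T
  | [], p => by simp [smAux, evL]
  | (x :: q), p => by
    rw [smAux, evL, evL, smAux_eval c T q x]
    push_cast
    ring

theorem smAux_length (c : ℤ) : ∀ (q : List ℤ) (p : ℤ), (smAux c p q).length = q.length + 1
  | [], p => by simp [smAux]
  | (x :: q), p => by rw [smAux, List.length_cons, smAux_length c q x, List.length_cons]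

theorem tay_cons_nil (c a : ℤ) (l : List ℤ) (h : tay c l = []) : tay c (a :: l) = [a] := by
  rw [tay, h]

theorem tay_cons_cons (c a x : ℤ) (l q : List ℤ) (h : tay c l = x :: q) :
    tay c (a :: l) = (a + c * x) :: smAux c x q := by
  rw [tay, h]

/-- LITERAL P -/
theorem tay_eval (c : ℤ) (l : List ℤ) (T : ℝ) : evL (tay c l) T = evL l ((c : ℝ) + T) := by
  induction l with
  | nil => simp [tay, evL]
  | cons a l ih =>
    have key : evL (tay c (a :: l)) T = (a : ℝ) + ((c : ℝ) + T) * evL (tay c l) T := by
      cases h : tay c l with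
      | nil => rw [tay_cons_nil c a l h]; simp [evL]
      | cons x q =>
        rw [tay_cons_cons c a x l q h, evL, evL, smAux_eval]
        push_cast
        ring
    rw [key, ih, evL]

theorem tay_length (c : ℤ) (l : List ℤ) : (tay c l).length = l.length := by
  induction l with
  | nil => simp [tay]
  | cons a l ih =>
    cases h : tay c l with
    | nil =>
      rw [tay_cons_nil c a l h]
      rw [h] at ih
      rw [List.length_cons, List.length_cons, ← ih]
    | cons x q =>
      rw [tay_cons_cons c a x l q h]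
      rw [h] at ih
      rw [List.length_cons, List.length_cons, smAux_length, ← ih, List.length_cons]

theorem evL_abs (H : ℕ) (T : ℝ) (hT : |T| ≤ H) : ∀ l : List ℤ, |evL l T| ≤ (absEv H l : ℝ)
  | [] => by simp [evL, absEv]
  | (a :: l) => by
    rw [evL, absEv]
    have h1 := evL_abs H T hT l
    have h2 : |(a : ℝ) + T * evL l T| ≤ |(a : ℝ)| + |T| * |evL l T| := by
      refine (abs_add_le _ _).trans ?_
      rw [abs_mul]
    have h3 : |T| * |evL l T| ≤ (H : ℝ) * (absEv H l : ℝ) :=
      mul_le_mul hT h1 (abs_nonneg _) (Nat.cast_nonneg _)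
    have h4 : |(a : ℝ)| = (a.natAbs : ℝ) := by
      rw [Nat.cast_natAbs, Int.cast_abs]
    push_cast
    linarith

theorem abs_natAbs (a : ℤ) : |(a : ℝ)| = (a.natAbs : ℝ) := by
  rw [Nat.cast_natAbs, Int.cast_abs]

theorem floor_close (m d : ℕ) (hd : 0 < d) :
    |((m : ℝ) / (d : ℝ)) - ((m / d : ℕ) : ℝ)| ≤ 1 := by
  have hd' : (0 : ℝ) < d := by exact_mod_cast hd
  have h1 : ((m / d : ℕ) : ℝ) ≤ (m : ℝ) / d := Nat.cast_div_le
  have h2 : (m : ℝ) / d < ((m / d : ℕ) : ℝ) + 1 := by
    rw [div_lt_iff₀ hd']
    have := Nat.lt_div_mul_add (a := m) hd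
    have h3 : (m : ℝ) < ((m / d * d + d : ℕ) : ℝ) := by exact_mod_cast this
    push_cast at h3
    linarith
  rw [abs_le]
  constructor <;> linarith

theorem le_floor (m d : ℕ) (hd : 0 < d) : (m : ℝ) / d ≤ ((m / d + 1 : ℕ) : ℝ) := by
  have := (abs_le.mp (floor_close m d hd)).2
  push_cast
  linarith

theorem pol_bound (l : List ℤ) (hl : 2 ≤ l.length) (H n : ℕ) :
    ∃ u : ℝ, |u * FF - ((polP H n l : ℝ) - (polN H n l : ℝ))| ≤ 1 ∧
      ∀ T : ℝ, |T| ≤ H →
        |evL l T| ^ n ≤ (polB H n l : ℝ) * Real.exp (u * T + (polT H n l : ℝ) / FF) := by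
  obtain ⟨a, b, q, rfl⟩ : ∃ a b q, l = a :: b :: q := by
    match l, hl with
    | (a :: b :: q), _ => exact ⟨a, b, q, rfl⟩
    | [], h => simp at h
    | [a], h => simp at h
  have hev : ∀ T : ℝ, evL (a :: b :: q) T = (a : ℝ) + ((b : ℝ) * T + T ^ 2 * evL q T) := by
    intro T
    rw [evL, evL]
    ring
  have hsum : ∀ T : ℝ, |T| ≤ H → |(b : ℝ) * T + T ^ 2 * evL q T| ≤
      (b.natAbs : ℝ) * H + (H : ℝ) * H * absEv H q := by
    intro T hT
    have h1 : |(b : ℝ) * T| ≤ (b.natAbs : ℝ) * H := by
      rw [abs_mul, abs_natAbs]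
      exact mul_le_mul_of_nonneg_left hT (Nat.cast_nonneg _)
    have h0 : (0 : ℝ) ≤ (absEv H q : ℝ) := Nat.cast_nonneg _
    have h2 : |T ^ 2 * evL q T| ≤ (H : ℝ) * H * absEv H q := by
      rw [abs_mul, abs_pow, sq]
      have := abs_nonneg T
      have h3 : |T| * |T| ≤ (H : ℝ) * H := mul_le_mul hT hT this (by positivity)
      exact mul_le_mul h3 (evL_abs H T hT q) (abs_nonneg _) (by positivity)
    exact (abs_add_le _ _).trans (add_le_add h1 h2)
  by_cases hc : 2 * (b.natAbs * H + H * H * absEv H q) + 1 ≤ a.toNat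
  · have hble : Nat.ble (2 * (b.natAbs * H + H * H * absEv H q) + 1) a.toNat = true :=
      Nat.ble_eq_true_of_le hc
    have hpos : 0 < a.toNat := by omega
    have hpa : 0 < a := by
      by_contra h
      have : a.toNat = 0 := Int.toNat_of_nonpos (not_lt.mp h)
      omega
    have hA : ((a.toNat : ℕ) : ℝ) = (a : ℝ) := by
      have : ((a.toNat : ℤ)) = a := Int.toNat_of_nonneg hpa.le
      exact_mod_cast this
    have hapos : (0 : ℝ) < (a : ℝ) := by exact_mod_cast hpa
    have hcR : 2 * ((b.natAbs : ℝ) * H + (H : ℝ) * H * absEv H q) + 1 ≤ (a : ℝ) := by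
      rw [← hA]
      exact_mod_cast hc
    have eP : polP H n (a :: b :: q) = (n * b.toNat * 1152921504606846976) / a.toNat := by
      rw [polP, hble]; rfl
    have eN : polN H n (a :: b :: q) = (n * (-b).toNat * 1152921504606846976) / a.toNat := by
      rw [polN, hble]; rfl
    have eT : polT H n (a :: b :: q) =
        (n * (H * H * absEv H q) * 1152921504606846976) / a.toNat + 1 := by
      rw [polT, hble]; rfl
    have eB : polB H n (a :: b :: q) = a.toNat ^ n := by
      rw [polB, hble]; rfl
    refine ⟨(n : ℝ) * b / a, ?_, ?_⟩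
    · rw [eP, eN]
      rcases le_total 0 b with hb | hb
      · have h1 : (-b).toNat = 0 := Int.toNat_of_nonpos (by omega)
        have h2 : ((b.toNat : ℕ) : ℝ) = (b : ℝ) := by
          have : ((b.toNat : ℤ)) = b := Int.toNat_of_nonneg hb
          exact_mod_cast this
        have h3 := floor_close (n * b.toNat * 1152921504606846976) a.toNat hpos
        rw [h1]
        have h4 : ((n * 0 * 1152921504606846976 / a.toNat : ℕ) : ℝ) = 0 := by simp
        rw [h4, sub_zero]
        have h5 : (n : ℝ) * b / a * FF =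
            ((n * b.toNat * 1152921504606846976 : ℕ) : ℝ) / (a.toNat : ℝ) := by
          push_cast
          rw [h2, hA, FF]
          ring
        rw [h5]
        exact h3
      · have h1 : b.toNat = 0 := Int.toNat_of_nonpos hb
        have h2 : (((-b).toNat : ℕ) : ℝ) = -(b : ℝ) := by
          have : (((-b).toNat : ℤ)) = -b := Int.toNat_of_nonneg (by omega)
          exact_mod_cast this
        have h3 := floor_close (n * (-b).toNat * 1152921504606846976) a.toNat hpos
        rw [h1]
        have h4 : ((n * 0 * 1152921504606846976 / a.toNat : ℕ) : ℝ) = 0 := by simp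
        rw [h4, zero_sub]
        have h5 : (n : ℝ) * b / a * FF =
            -(((n * (-b).toNat * 1152921504606846976 : ℕ) : ℝ) / (a.toNat : ℝ)) := by
          push_cast
          rw [h2, hA, FF]
          ring
        rw [h5, sub_neg_eq_add, neg_add_eq_sub, abs_sub_comm]
        exact h3
    · intro T hT
      rw [eB, eT, hev]
      have hx := hsum T hT
      set s : ℝ := (b : ℝ) * T + T ^ 2 * evL q T with hs
      have hS : |s| ≤ (a : ℝ) / 2 := by linarith
      have hpos1 : 0 ≤ (a : ℝ) + s := by
        have := (abs_le.mp hS).1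
        linarith
      have h1 : (a : ℝ) + s ≤ a * Real.exp (s / a) := by
        have := Real.add_one_le_exp (s / a)
        have h2 : (a : ℝ) + s = a * (s / a + 1) := by
          field_simp
          ring
        rw [h2]
        exact mul_le_mul_of_nonneg_left this hapos.le
      have h2 : |(a : ℝ) + s| ^ n ≤ (a : ℝ) ^ n * Real.exp (n * (s / a)) := by
        rw [abs_of_nonneg hpos1]
        calc ((a : ℝ) + s) ^ n ≤ (a * Real.exp (s / a)) ^ n := pow_le_pow_left₀ hpos1 h1 n
          _ = (a : ℝ) ^ n * Real.exp (n * (s / a)) := by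
            rw [mul_pow, ← Real.exp_nat_mul]
      refine h2.trans ?_
      have h3 : ((a.toNat ^ n : ℕ) : ℝ) = (a : ℝ) ^ n := by
        push_cast
        rw [hA]
      rw [h3]
      apply mul_le_mul_of_nonneg_left _ (by positivity)
      apply Real.exp_le_exp.mpr
      have h4 : (n : ℝ) * (s / a) = (n : ℝ) * b / a * T + (n : ℝ) * (T ^ 2 * evL q T) / a := by
        rw [hs]
        field_simp
      rw [h4]
      have h5 : T ^ 2 * evL q T ≤ (H : ℝ) * H * absEv H q := by
        have h6 : |T ^ 2 * evL q T| ≤ (H : ℝ) * H * absEv H q := by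
          rw [abs_mul, abs_pow, sq]
          have := abs_nonneg T
          have h3 : |T| * |T| ≤ (H : ℝ) * H := mul_le_mul hT hT this (by positivity)
          exact mul_le_mul h3 (evL_abs H T hT q) (abs_nonneg _) (by positivity)
        exact (le_abs_self _).trans h6
      have h7 := le_floor (n * (H * H * absEv H q) * 1152921504606846976) a.toNat hpos
      have hFF : (0 : ℝ) < FF := by
        rw [FF]
        norm_num
      have h8 : (n : ℝ) * (T ^ 2 * evL q T) / a ≤
          ((n * (H * H * absEv H q) * 1152921504606846976 / a.toNat + 1 : ℕ) : ℝ) / FF := by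
        rw [le_div_iff₀ hFF]
        refine le_trans ?_ h7
        push_cast
        rw [hA, FF]
        rw [div_mul_eq_mul_div]
        apply div_le_div_of_nonneg_right _ hapos.le
        apply mul_le_mul_of_nonneg_right _ (by norm_num)
        exact mul_le_mul_of_nonneg_left h5 (Nat.cast_nonneg _)
      linarith
  · have hble : Nat.ble (2 * (b.natAbs * H + H * H * absEv H q) + 1) a.toNat = false := by
      by_contra h
      exact hc (Nat.le_of_ble_eq_true (by simpa using h))
    have eP : polP H n (a :: b :: q) = 0 := by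
      rw [polP, hble]; rfl
    have eN : polN H n (a :: b :: q) = 0 := by
      rw [polN, hble]; rfl
    have eT : polT H n (a :: b :: q) = 0 := by
      rw [polT, hble]; rfl
    have eB : polB H n (a :: b :: q) = (a.natAbs + b.natAbs * H + H * H * absEv H q) ^ n := by
      rw [polB, hble]; rfl
    refine ⟨0, ?_, ?_⟩
    · rw [eP, eN]
      simp
    · intro T hT
      rw [eB, eT, hev]
      have hx := hsum T hT
      have h0 : Real.exp (0 * T + ((0 : ℕ) : ℝ) / FF) = 1 := by simp
      rw [h0, mul_one]
      push_cast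
      apply pow_le_pow_left₀ (abs_nonneg _)
      refine (abs_add_le _ _).trans ?_
      rw [abs_natAbs]
      linarith

end H79.ZZ
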